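import Pool.Agent.Lib_helper87.Tame.Final

/-!
# MP_54f350_ag: the tame Tate twist of weight zero has a nonzero `R²β_*`
-/

namespace Pool.Agent.Results.MP_54f350_ag.TameDirectImage

open CategoryTheory AlgebraicGeometry Limits TameSite

/-- Part (a) of the question fails for `A = ℤ₂`, `π = p = 2`, `n = 0` and `r = 1`: there is a
smooth `A`-algebra `B` such that the sheaf `R² β_* (i^* 𝔗ᵗ_1(0))` on the Nisnevich site of
`Spec (B/π)` is not zero, although `2 > n + 1`.  Here `𝔗ᵗ_1(0)` is the tame Tate twist of weight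
zero on `X = Spec B`, pulled back to `Spec H` and then to `Spec (B/π)`, for an arbitrary
factorization `B → H → B/π` of the quotient map, such as the henselization `H = B^h`. -/
theorem result :
    IsMixedDVR ℤ_[2] 2 2 ∧
    ∃ (B : Type) (_ : CommRing B) (_ : Algebra ℤ_[2] B), Algebra.Smooth ℤ_[2] B ∧
      ∀ (H : CommRingCat.{0}) (j : .of B ⟶ H) (i : H ⟶ modPi B (2 : ℤ_[2])),
        j ≫ i = toModPi B (2 : ℤ_[2]) →
          ¬ IsZero (directImageTwist (CommRingCat.ofHom (algebraMap ℤ_[2] B)) j i 2 1 2) := by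
  obtain ⟨hirr, hchar0, hchar2, hperf, -⟩ := padic_facts
  obtain ⟨B, _, _, hsm, h⟩ := exists_counterexample
  exact ⟨⟨hirr, Nat.prime_two, hperf, hchar2, hchar0⟩, B, inferInstance, inferInstance, hsm,
    fun H j i _ => h H j i⟩

end Pool.Agent.Results.MP_54f350_ag.TameDirectImage
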